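import Pool.Agent.W547.LD.Defs

/-!
# Abelian varieties of CM type with simple factors of dimension at most three
-/

namespace Pool.Agent.W547.LN

open Module Pool.Agent.W547.KB

/-- The CM types `(E, Φ)` and `(E', Φ')` of `A` and `B` are isomorphic: there is an isomorphism of
the CM fields which takes the one CM type to the other one. For simple abelian varieties of
CM type this means that they are isogenous. -/
def SameType (A B : CMPair) : Prop :=
  ∃ e : A.E ≃+* B.E, ∀ ψ : B.E →+* ℂ, ψ ∈ B.Φ ↔ ψ.comp (e : A.E →+* B.E) ∈ A.Φ

/-- The factors of `X` have dimension at most three, and any two factors whose CM fields have the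
same Galois closure over `ℚ` (in the field of complex numbers) have isomorphic CM types, unless these
CM fields are Galois over `ℚ`. -/
structure SmallFactors (X : CMAV) : Prop where
  degree : ∀ i, finrank ℚ (X.factor i).E ≤ 6
  closure : ∀ i k, IntermediateField.normalClosure ℚ (X.factor i).E ℂ =
    IntermediateField.normalClosure ℚ (X.factor k).E ℂ →
      IsGalois ℚ (X.factor i).E ∨ SameType (X.factor i) (X.factor k)

end Pool.Agent.W547.LN
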