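import Pool.Agent.W547.LN.Block
import Pool.Agent.W547.LN.Defs

/-!
# Galois closures and the kernels of the orbits
-/

set_option linter.unusedSectionVars false
set_option linter.unusedVariables false

namespace Pool.Agent.W547.LN

open NumberField Pool.Agent.H204R3.CM Pool.Agent.W547.KB Pool.Agent.W547.LD Equiv Module
open IntermediateField

noncomputable section

variable {L : Type} [Field L] [NumberField L] [IsCMField L] [IsGalois ℚ L]

theorem card_hom (A : CMPair) (j : L →+* ℂ)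
    (hj : ∀ ψ : A.E →+* ℂ, ∃ φ : A.E →+* L, j.comp φ = ψ) :
    Nat.card (A.E →+* L) = finrank ℚ A.E := by
  have hbij : Function.Bijective (fun φ : A.E →+* L => j.comp φ) := by
    constructor
    · intro φ φ' h
      ext a
      exact j.injective (RingHom.congr_fun h a)
    · exact hj
  rw [Nat.card_eq_of_bijective _ hbij, Nat.card_eq_fintype_card, Embeddings.card]

theorem exists_smul (A : CMPair) (φ φ' : A.E →+* L) : ∃ g : L ≃ₐ[ℚ] L, g • φ = φ' := by
  let _ := φ.toAlgebra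
  have : IsScalarTower ℚ A.E L := inferInstance
  let ψ : A.E →ₐ[ℚ] L := RingHom.equivRatAlgHom A.E L φ'
  let f : L →ₐ[ℚ] L := ψ.liftNormal L
  let g : L ≃ₐ[ℚ] L := AlgEquiv.ofBijective f (AlgHom.bijective f)
  refine ⟨g, ?_⟩
  ext x
  exact ψ.liftNormal_commutes L x

open Classical in
theorem hs_injective (A : CMPair) (j : L →+* ℂ)
    (hj : ∀ ψ : A.E →+* ℂ, ∃ φ : A.E →+* L, j.comp φ = ψ) (hA : finrank ℚ A.E ≤ 6)
    (h2 : 2 < (Set.range (hs A j)).ncard) : Function.Injective (hs A j) := by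
  intro φ φ' h
  by_contra hne
  have : Finite (A.E →+* L) := by
    apply Nat.finite_of_card_ne_zero
    rw [card_hom A j hj]
    exact Module.finrank_pos.ne'
  have := Fintype.ofFinite (A.E →+* L)
  have h3 := Finset.mul_card_image_le_card (Finset.univ : Finset (A.E →+* L)) (f := hs A j) 2 (by
    intro S hS
    obtain ⟨ψ, -, rfl⟩ := Finset.mem_image.1 hS
    obtain ⟨g, hg⟩ := exists_smul A φ ψ
    have h4 : ψ ≠ g • φ' := by
      rw [← hg]
      intro h5
      exact hne (smul_left_cancel g h5)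
    refine Finset.one_lt_card.2 ⟨ψ, ?_, g • φ', ?_, h4⟩
    · exact Finset.mem_filter.2 ⟨Finset.mem_univ _, rfl⟩
    · refine Finset.mem_filter.2 ⟨Finset.mem_univ _, ?_⟩
      rw [← tr_hs, ← h, tr_hs, hg])
  have h4 : (Set.range (hs A j)).ncard = (Finset.univ.image (hs A j)).card := by
    rw [← Set.ncard_coe_finset, Finset.coe_image, Finset.coe_univ, Set.image_univ]
  have h5 := Comb.even_ncard (compl_hs A j)
  have h6 : Fintype.card (A.E →+* L) ≤ 6 := by
    rw [← Nat.card_eq_fintype_card, card_hom A j hj]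
    exact hA
  rw [Finset.card_univ] at h3
  obtain ⟨m, hm⟩ := h5
  omega

/-- An automorphism which fixes all embeddings of `B`. -/
theorem mem_kerP_of_fix (B : CMPair) (j : L →+* ℂ) (τ : L ≃ₐ[ℚ] L)
    (h : ∀ φ : B.E →+* L, τ • φ = φ) : τ ∈ Comb.kerP (Set.range (hs B j)) := by
  rintro _ ⟨φ, rfl⟩
  rw [tr_hs, h]

theorem normalClosure_le (A B : CMPair) (j : L →+* ℂ)
    (hjA : ∀ ψ : A.E →+* ℂ, ∃ φ : A.E →+* L, j.comp φ = ψ)
    (hinj : Function.Injective (hs A j))
    (hker : Comb.kerP (Set.range (hs B j)) ≤ Comb.kerP (Set.range (hs A j))) :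
    normalClosure ℚ A.E ℂ ≤ normalClosure ℚ B.E ℂ := by
  rw [normalClosure_le_iff]
  rintro ψ _ ⟨a, rfl⟩
  obtain ⟨φ, hφ⟩ := hjA (ψ : A.E →+* ℂ)
  have h0 : ψ a = j (φ a) := (RingHom.congr_fun hφ a).symm
  change ψ a ∈ normalClosure ℚ B.E ℂ
  rw [h0]
  -- the closure of `B` in `L`
  let K : IntermediateField ℚ L := normalClosure ℚ B.E L
  have h1 : φ a ∈ K := by
    rw [← IsGalois.fixedField_fixingSubgroup K, IntermediateField.mem_fixedField_iff]
    intro τ hτ
    have h2 : τ ∈ Comb.kerP (Set.range (hs B j)) := by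
      refine mem_kerP_of_fix B j τ fun φ' => ?_
      ext b
      change τ (φ' b) = φ' b
      refine (IntermediateField.mem_fixingSubgroup_iff K τ).1 hτ _ ?_
      exact (RingHom.equivRatAlgHom B.E L φ').fieldRange_le_normalClosure ⟨b, rfl⟩
    have h3 := hker h2 _ ⟨φ, rfl⟩
    rw [tr_hs] at h3
    exact RingHom.congr_fun (hinj h3) a
  let jj : L →ₐ[ℚ] ℂ := RingHom.equivRatAlgHom L ℂ j
  have h2 : K ≤ (normalClosure ℚ B.E ℂ).comap jj := by
    rw [normalClosure_le_iff]
    rintro φ' _ ⟨b, rfl⟩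
    change jj (φ' b) ∈ normalClosure ℚ B.E ℂ
    exact (jj.comp φ').fieldRange_le_normalClosure ⟨b, rfl⟩
  exact h2 h1

/-- Isomorphic CM types have the same half systems. -/
theorem range_eq_of_sameType (A B : CMPair) (j : L →+* ℂ) (h : SameType A B) :
    Set.range (hs A j) = Set.range (hs B j) := by
  obtain ⟨e, he⟩ := h
  have h1 : ∀ φ : B.E →+* L, hs B j φ = hs A j (φ.comp (e : A.E →+* B.E)) := by
    intro φ
    ext σ
    exact he (j.comp (σ • φ))
  ext S
  constructor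
  · rintro ⟨φ, rfl⟩
    refine ⟨φ.comp (e.symm : B.E →+* A.E), ?_⟩
    rw [h1]
    congr 1
    ext x
    simp
  · rintro ⟨φ, rfl⟩
    exact ⟨φ.comp (e : A.E →+* B.E), (h1 φ).symm⟩

open Classical in
/-- The Galois case. -/
theorem range_eq_of_galois (A B : CMPair) (j : L →+* ℂ)
    (hj : ∀ ψ : A.E →+* ℂ, ∃ φ : A.E →+* L, j.comp φ = ψ) (hA : finrank ℚ A.E ≤ 6)
    (h2 : 2 < (Set.range (hs A j)).ncard) (h2B : 2 < (Set.range (hs B j)).ncard)
    (hker : Comb.kerP (Set.range (hs A j)) = Comb.kerP (Set.range (hs B j)))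
    (hG : IsGalois ℚ A.E) : Set.range (hs A j) = Set.range (hs B j) := by
  have hinj := hs_injective A j hj hA h2
  have hQA : Comb.Stable (Set.range (hs A j)) := stable_hs A j
  have hTA := trans_hs A j
  set QA := Set.range (hs A j) with hQAdef
  set QB := Set.range (hs B j) with hQBdef
  obtain ⟨x, hx⟩ : QA.Nonempty := by
    rw [Set.nonempty_iff_ne_empty]
    intro h
    rw [h, Set.ncard_empty] at h2
    omega
  have hc : ∀ g, cc L * g = g * cc L := fun g => cc_comm j g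
  have hxH : IsHalf x := by
    obtain ⟨φ, rfl⟩ := hx
    exact isHalf_hs A j φ
  -- the stabilizer is the kernel
  have hst : ∀ τ, Comb.tr τ x = x → τ ∈ Comb.kerP QA := by
    intro τ hτ
    obtain ⟨φ, rfl⟩ := hx
    rw [tr_hs] at hτ
    have h3 := hinj hτ
    have : Finite (A.E →+* L) := by
      apply Nat.finite_of_card_ne_zero
      rw [card_hom A j hj]
      exact Module.finrank_pos.ne'
    have hbij : Function.Bijective (fun α : A.E ≃ₐ[ℚ] A.E => φ.comp (α : A.E →+* A.E)) := by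
      refine Function.Injective.bijective_of_nat_card_le ?_ ?_
      · intro α β h
        ext a
        exact φ.injective (RingHom.congr_fun h a)
      · rw [card_hom A j hj, IsGalois.card_aut_eq_finrank]
    apply mem_kerP_of_fix
    intro φ'
    obtain ⟨α, hα⟩ := hbij.2 φ'
    ext a
    rw [← hα]
    exact RingHom.congr_fun h3 (α a)
  by_contra hne
  have hdisj : Disjoint QA QB := by
    rw [Set.disjoint_left]
    intro S hSA hSB
    apply hne
    ext T
    constructor
    · intro hT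
      obtain ⟨g, hg⟩ := hTA S hSA T hT
      rw [← hg]
      exact stable_hs B j g S hSB
    · intro hT
      obtain ⟨g, hg⟩ := trans_hs B j S hSB T hT
      rw [← hg]
      exact hQA g S hSA
  -- the invariant half systems
  let HH : Set (Set (L ≃ₐ[ℚ] L)) := {S | IsHalf S ∧ ∀ τ ∈ Comb.kerP QA, Comb.tr τ S = S}
  have hsubA : QA ⊆ HH := by
    intro S hS
    refine ⟨?_, fun τ hτ => hτ S hS⟩
    obtain ⟨φ, rfl⟩ := hS
    exact isHalf_hs A j φ
  have hsubB : QB ⊆ HH := by
    intro S hS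
    refine ⟨?_, fun τ hτ => ?_⟩
    · obtain ⟨φ, rfl⟩ := hS
      exact isHalf_hs B j φ
    · rw [hker] at hτ
      exact hτ S hS
  have h3 : QA.ncard + QB.ncard ≤ HH.ncard := by
    rw [← Set.ncard_union_eq hdisj (Set.toFinite _) (Set.toFinite _)]
    exact Set.ncard_le_ncard (Set.union_subset hsubA hsubB) (Set.toFinite _)
  -- half of the elements of the orbit
  let R : Type := {T : Set (L ≃ₐ[ℚ] L) // T ∈ QA ∧ (1 : L ≃ₐ[ℚ] L) ∈ T}
  have hR : 2 * Nat.card R = QA.ncard := by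
    have h4 : QA = {T | T ∈ QA ∧ (1 : L ≃ₐ[ℚ] L) ∈ T} ∪
        compl '' {T | T ∈ QA ∧ (1 : L ≃ₐ[ℚ] L) ∈ T} := by
      ext S
      constructor
      · intro h
        by_cases h5 : (1 : L ≃ₐ[ℚ] L) ∈ S
        · exact Or.inl ⟨h, h5⟩
        · exact Or.inr ⟨Sᶜ, ⟨compl_hs A j S h, h5⟩, compl_compl S⟩
      · rintro (h | ⟨T, h, rfl⟩)
        · exact h.1
        · exact compl_hs A j T h.1
    have h5 : Disjoint {T | T ∈ QA ∧ (1 : L ≃ₐ[ℚ] L) ∈ T}
        (compl '' {T | T ∈ QA ∧ (1 : L ≃ₐ[ℚ] L) ∈ T}) := by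
      rw [Set.disjoint_left]
      rintro S h6 ⟨T, h7, rfl⟩
      exact h6.2 h7.2
    rw [h4, Set.ncard_union_eq h5 (Set.toFinite _) (Set.toFinite _),
      Set.ncard_image_of_injective _ compl_injective]
    have h6 : Nat.card R = {T | T ∈ QA ∧ (1 : L ≃ₐ[ℚ] L) ∈ T}.ncard := rfl
    rw [h6]
    ring
  have hg : ∀ T : R, ∃ g, Comb.tr g x = T.1 := fun T => hTA x hx T.1 T.2.1
  choose g hg using hg
  have h7 : HH.ncard ≤ Nat.card (R → Prop) := by
    have h8 : HH.ncard = Nat.card HH := rfl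
    rw [h8]
    refine Nat.card_le_card_of_injective (fun S T => g T ∈ S.1) ?_
    rintro ⟨S, hS, hSi⟩ ⟨S', hS', hSi'⟩ h
    apply Subtype.ext
    change S = S'
    have key : ∀ τ : L ≃ₐ[ℚ] L, (1 : L ≃ₐ[ℚ] L) ∈ Comb.tr τ x → (τ ∈ S ↔ τ ∈ S') := by
      intro τ hτ
      let T : R := ⟨Comb.tr τ x, hQA τ x hx, hτ⟩
      have h9 : (g T ∈ S) = (g T ∈ S') := congrFun h T
      have h10 : τ⁻¹ * g T ∈ Comb.kerP QA := by
        apply hst
        rw [← Comb.tr_tr, hg T]
        exact Comb.tr_inv_tr τ x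
      have h11 : ∀ U : Set (L ≃ₐ[ℚ] L), (∀ τ ∈ Comb.kerP QA, Comb.tr τ U = U) →
          (g T ∈ U ↔ τ ∈ U) := by
        intro U hU
        have h12 := hU _ h10
        have h13 : τ ∈ Comb.tr (τ⁻¹ * g T) U ↔ τ ∈ U := by rw [h12]
        rw [Comb.mem_tr, mul_inv_cancel_left] at h13
        exact h13
      rw [← h11 S hSi, ← h11 S' hSi', h9]
    ext τ
    by_cases h9 : (1 : L ≃ₐ[ℚ] L) ∈ Comb.tr τ x
    · exact key τ h9
    · have h10 : (1 : L ≃ₐ[ℚ] L) ∈ Comb.tr (cc L * τ) x := by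
        rw [hc, ← Comb.tr_tr, Comb.tr_c hc hxH, Comb.tr_compl]
        exact h9
      have h11 := key _ h10
      have h12 := hS τ
      have h13 := hS' τ
      tauto
  have h8 : Nat.card (R → Prop) = 2 ^ Nat.card R := by
    rw [Nat.card_fun, Nat.card_eq_fintype_card (α := Prop), Fintype.card_prop]
  have h9 : QA.ncard ≤ 6 := (ncard_hs A j hj).trans hA
  rw [h8] at h7
  have h10 : Nat.card R = 2 ∨ Nat.card R = 3 := by omega
  rcases h10 with h10 | h10
  · rw [h10] at h7 hR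
    norm_num at h7
    omega
  · rw [h10] at h7 hR
    norm_num at h7
    omega

end

end Pool.Agent.W547.LN
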