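import Pool.Agent.W547.LF.Struct

/-!
# Separation of orbits of half systems
-/

set_option linter.unusedSectionVars false
set_option linter.unusedVariables false

namespace Pool.Agent.W547.LD.Comb

open Finset

noncomputable section

variable {G : Type} [Group G] [Fintype G]

/-- Right translation of functions. -/
def rtr (h : G) : (G → ℚ) →ₗ[ℚ] (G → ℚ) where
  toFun F := fun σ => F (σ * h)
  map_add' := fun _ _ => rfl
  map_smul' := fun _ _ => rfl

theorem rtr_apply (h : G) (F : G → ℚ) (σ : G) : rtr h F σ = F (σ * h) := rfl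

theorem rtr_eps (h : G) (S : Set G) : rtr h (eps S) = eps (tr h S) := rfl

theorem rtr_rtr (g h : G) (F : G → ℚ) : rtr g (rtr h F) = rtr (g * h) F := by
  funext σ
  change F (σ * g * h) = F (σ * (g * h))
  rw [mul_assoc]

theorem rtr_one (F : G → ℚ) : rtr 1 F = F := by
  funext σ
  change F (σ * 1) = F σ
  rw [mul_one]

theorem eps_compl' (S : Set G) : eps Sᶜ = -eps S := funext fun σ => eps_compl S σ

/-- The subgroups of index two which do not contain `c`. -/
def Imag (c : G) (N : Subgroup G) : Prop := c ∉ N ∧ ∀ τ, τ ∉ N → c * τ ∈ N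

theorem Imag.mul_mem_iff {c : G} (hc : ∀ g, c * g = g * c) {N : Subgroup G} (hN : Imag c N)
    {σ τ : G} : σ * τ ∈ N ↔ (σ ∈ N ↔ τ ∈ N) := by
  have hcc : c * c ∈ N := hN.2 c hN.1
  by_cases h1 : σ ∈ N
  · rw [N.mul_mem_cancel_left h1]
    tauto
  · by_cases h2 : τ ∈ N
    · rw [N.mul_mem_cancel_right h2]
      tauto
    · have h3 : (c * σ) * (c * τ) ∈ N := N.mul_mem (hN.2 σ h1) (hN.2 τ h2)
      have h4 : (c * σ) * (c * τ) = (c * c) * (σ * τ) := by
        calc (c * σ) * (c * τ) = c * (σ * c) * τ := by group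
          _ = c * (c * σ) * τ := by rw [← hc σ]
          _ = (c * c) * (σ * τ) := by group
      rw [h4, N.mul_mem_cancel_left hcc] at h3
      tauto

theorem Imag.tr_mem {c : G} {N : Subgroup G} {τ : G} (hτ : τ ∈ N) :
    tr τ {σ | σ ∈ N} = {σ | σ ∈ N} := by
  ext σ
  rw [mem_tr]
  exact N.mul_mem_cancel_right hτ

theorem Imag.tr_not_mem {c : G} (hc : ∀ g, c * g = g * c) {N : Subgroup G} (hN : Imag c N) {τ : G}
    (hτ : τ ∉ N) : tr τ {σ | σ ∈ N} = {σ | σ ∈ N}ᶜ := by
  ext σ
  rw [mem_tr, Set.mem_compl_iff]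
  change σ * τ ∈ N ↔ ¬ σ ∈ N
  rw [hN.mul_mem_iff hc]
  tauto

/-- The span of the odd quadratic characters. -/
def QQ (c : G) : Submodule ℚ (G → ℚ) :=
  Submodule.span ℚ {F | ∃ N : Subgroup G, Imag c N ∧ F = eps {σ | σ ∈ N}}

/-- The span of the signs of the half systems in `P`. -/
def VV (P : Set (Set G)) : Submodule ℚ (G → ℚ) := Submodule.span ℚ {F | ∃ S ∈ P, F = eps S}

theorem eps_mem_QQ {c : G} {N : Subgroup G} (hN : Imag c N) : eps {σ | σ ∈ N} ∈ QQ c :=
  Submodule.subset_span ⟨N, hN, rfl⟩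

theorem eps_mem_VV {P : Set (Set G)} {S : Set G} (hS : S ∈ P) : eps S ∈ VV P :=
  Submodule.subset_span ⟨S, hS, rfl⟩

theorem rtr_mem_QQ {c : G} (hc : ∀ g, c * g = g * c) (h : G) {F : G → ℚ} (hF : F ∈ QQ c) :
    rtr h F ∈ QQ c := by
  refine Submodule.span_induction (p := fun F _ => rtr h F ∈ QQ c) ?_ ?_ ?_ ?_ hF
  · rintro _ ⟨N, hN, rfl⟩
    rw [rtr_eps]
    by_cases h1 : h ∈ N
    · rw [Imag.tr_mem (c := c) h1]
      exact eps_mem_QQ hN
    · rw [hN.tr_not_mem hc h1, eps_compl']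
      exact Submodule.neg_mem _ (eps_mem_QQ hN)
  · rw [map_zero]
    exact Submodule.zero_mem _
  · intro x y _ _ hx hy
    rw [map_add]
    exact Submodule.add_mem _ hx hy
  · intro a x _ hx
    rw [map_smul]
    exact Submodule.smul_mem _ _ hx

theorem rtr_mem_VV {P : Set (Set G)} (hP : Stable P) (h : G) {F : G → ℚ} (hF : F ∈ VV P) :
    rtr h F ∈ VV P := by
  refine Submodule.span_induction (p := fun F _ => rtr h F ∈ VV P) ?_ ?_ ?_ ?_ hF
  · rintro _ ⟨S, hS, rfl⟩
    rw [rtr_eps]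
    exact eps_mem_VV (hP h S hS)
  · rw [map_zero]
    exact Submodule.zero_mem _
  · intro x y _ _ hx hy
    rw [map_add]
    exact Submodule.add_mem _ hx hy
  · intro a x _ hx
    rw [map_smul]
    exact Submodule.smul_mem _ _ hx

theorem two_mul_card_le' {P : Set (Set G)} (hcompl : ∀ S ∈ P, Sᶜ ∈ P) {ι : Type} [Fintype ι]
    (r : ι → Set G) (hr : Function.Injective r) (hne : ∀ i k, r i ≠ (r k)ᶜ) (hmem : ∀ i, r i ∈ P) :
    2 * Fintype.card ι ≤ P.ncard := by
  have h1 : Function.Injective (Sum.elim r (fun i => (r i)ᶜ)) := by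
    rintro (i | i) (k | k) h
    · exact congrArg Sum.inl (hr h)
    · exact absurd h (hne i k)
    · exact absurd h.symm (hne k i)
    · exact congrArg Sum.inr (hr (compl_injective h))
  have h2 : Nat.card (ι ⊕ ι) ≤ P.ncard := by
    rw [← Set.ncard_range_of_injective h1]
    refine Set.ncard_le_ncard ?_ (Set.toFinite _)
    rintro _ ⟨i | i, rfl⟩
    · exact hmem i
    · exact hcompl _ (hmem i)
  rw [Nat.card_sum, Nat.card_eq_fintype_card] at h2
  omega

section

variable {c : G} (hc : ∀ g, c * g = g * c) {P : Set (Set G)} (hP : Stable P) (hT : Trans P)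
  (hcompl : ∀ S ∈ P, Sᶜ ∈ P) (hH : ∀ S ∈ P, Half c S) (hcard : P.ncard ≤ 6)

/-- A function which is invariant under `N` and odd. -/
theorem eq_smul_eps {N : Subgroup G} (hN : Imag c N) {U : G → ℚ} (h1 : ∀ τ ∈ N, rtr τ U = U)
    (h2 : ∀ σ, U (c * σ) = -U σ) : U = U 1 • eps {σ | σ ∈ N} := by
  funext σ
  rw [Pi.smul_apply, smul_eq_mul]
  by_cases h : σ ∈ N
  · have h3 := congrFun (h1 σ h) 1
    rw [rtr_apply, one_mul] at h3
    rw [h3, show eps {σ | σ ∈ N} σ = 1 from if_pos h, mul_one]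
  · have h3 := congrFun (h1 _ (hN.2 σ h)) 1
    rw [rtr_apply, one_mul, h2] at h3
    rw [← h3, show eps {σ | σ ∈ N} σ = -1 from if_neg h]
    ring

include hc hP hT hcompl hH hcard in
/-- The sum over a normal subgroup that acts non-trivially. -/
theorem sum_mem_QQ (M : Subgroup G) [hMn : M.Normal] [Fintype M]
    (hM : ¬ ∀ h ∈ M, ∀ S ∈ P, tr h S = S) {S : Set G} (hS : S ∈ P) :
    ∑ h : M, rtr h.1 (eps S) ∈ QQ c := by
  by_cases hA : ∃ h0 ∈ M, tr h0 S = Sᶜ
  · obtain ⟨h0, hh0, h1⟩ := hA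
    have h2 : ∑ h : M, rtr h.1 (eps S) = ∑ h : M, rtr (h * ⟨h0, hh0⟩ : M).1 (eps S) :=
      (Fintype.sum_equiv (Equiv.mulRight (⟨h0, hh0⟩ : M)) _ _ fun h => rfl).symm
    have h3 : ∀ h : M, rtr (h * ⟨h0, hh0⟩ : M).1 (eps S) = -rtr h.1 (eps S) := by
      intro h
      change rtr (h.1 * h0) (eps S) = _
      rw [← rtr_rtr, rtr_eps h0, h1, eps_compl', map_neg]
    rw [Finset.sum_congr rfl (fun h _ => h3 h), Finset.sum_neg_distrib] at h2
    have h4 : ∑ h : M, rtr h.1 (eps S) = 0 := by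
      have h5 : (2 : ℚ) • ∑ h : M, rtr h.1 (eps S) = 0 := by
        rw [two_smul]
        nth_rewrite 2 [h2]
        exact add_neg_cancel _
      exact (smul_eq_zero.1 h5).resolve_left (by norm_num)
    rw [h4]
    exact Submodule.zero_mem _
  push Not at hA
  -- the group
  let N : Subgroup G :=
    { carrier := {τ | ∃ h ∈ M, tr τ S = tr h S}
      one_mem' := ⟨1, M.one_mem, rfl⟩
      mul_mem' := by
        rintro τ τ' ⟨h, hh, h1⟩ ⟨h', hh', h1'⟩
        refine ⟨(τ * h' * τ⁻¹) * h, M.mul_mem (hMn.conj_mem h' hh' τ) hh, ?_⟩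
        rw [← tr_tr, h1', tr_tr, ← tr_tr (τ * h' * τ⁻¹), ← h1, tr_tr]
        congr 1
        group
      inv_mem' := by
        rintro τ ⟨h, hh, h1⟩
        refine ⟨(τ⁻¹ * h * τ)⁻¹, M.inv_mem ?_, ?_⟩
        · have := hMn.conj_mem h hh τ⁻¹
          rwa [inv_inv] at this
        · have h2 : S = tr (τ⁻¹ * h) S := by
            rw [← tr_tr, ← h1, tr_inv_tr]
          nth_rewrite 1 [h2]
          rw [tr_tr] 
          have h3 : tr (τ⁻¹ * h * τ) (tr τ⁻¹ S) = S := by
            rw [tr_tr, show τ⁻¹ * h * τ * τ⁻¹ = τ⁻¹ * h by group]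
            exact h2.symm
          have h4 : tr τ⁻¹ S = tr (τ⁻¹ * h * τ)⁻¹ S := by
            nth_rewrite 2 [← h3]
            rw [tr_inv_tr]
          rw [← h4, ← tr_tr, ← h2] }
  have hNmem : ∀ τ, τ ∈ N ↔ ∃ h ∈ M, tr τ S = tr h S := fun τ => Iff.rfl
  have hcS : tr c S = Sᶜ := tr_c hc (hH S hS)
  have hN : Imag c N := by
    constructor
    · rintro ⟨h, hh, h1⟩
      exact hA h hh (h1.symm.trans hcS)
    · intro τ hτ
      by_contra hcon
      -- the elements of P are not fixed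
      have hmove : ∀ T ∈ P, ∃ h ∈ M, tr h T ≠ T := by
        intro T hTP
        by_contra h
        push Not at h
        apply hM
        intro k hk U hU
        obtain ⟨g, hg⟩ := hT T hTP U hU
        rw [← hg, tr_tr, show k * g = g * (g⁻¹ * k * g) by group, ← tr_tr]
        congr 1
        have := hMn.conj_mem k hk g⁻¹
        rw [inv_inv] at this
        exact h _ this
      set T := tr τ S with hTdef
      have hTP : T ∈ P := hP τ S hS
      obtain ⟨h1, hh1, h1'⟩ := hmove S hS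
      obtain ⟨h2, hh2, h2'⟩ := hmove T hTP
      let A : Set G → Prop := fun U => ∃ h ∈ M, U = tr h S
      have hAc : ∀ U, A U → ¬ A Uᶜ := by
        rintro U ⟨h, hh, rfl⟩ ⟨k, hk, h3⟩
        apply hA (h⁻¹ * k) (M.mul_mem (M.inv_mem hh) hk)
        rw [← tr_tr, ← h3, ← tr_compl, tr_inv_tr]
      have hAT : ∀ h ∈ M, ¬ A (tr h T) := by
        rintro h hh ⟨k, hk, h3⟩
        apply hτ
        refine ⟨h⁻¹ * k, M.mul_mem (M.inv_mem hh) hk, ?_⟩
        rw [← tr_tr, ← h3, tr_inv_tr]
      have hATc : ∀ h ∈ M, ¬ A (tr h T)ᶜ := by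
        rintro h hh ⟨k, hk, h3⟩
        apply hcon
        refine ⟨h⁻¹ * k, M.mul_mem (M.inv_mem hh) hk, ?_⟩
        have e1 : tr (c * τ) S = Tᶜ := by rw [hc, ← tr_tr, hcS, tr_compl]
        have e2 : tr (h⁻¹ * k) S = Tᶜ := by rw [← tr_tr, ← h3, ← tr_compl, tr_inv_tr]
        exact e1.trans e2.symm
      have hTT : ∀ h ∈ M, ∀ k ∈ M, tr h T ≠ (tr k T)ᶜ := by
        intro h hh k hk h3
        have h4 : tr (τ⁻¹ * (k⁻¹ * h) * τ) S = Sᶜ := by
          have h5 : tr (k⁻¹ * h) T = Tᶜ := by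
            rw [← tr_tr, h3, ← tr_compl, tr_inv_tr]
          rw [← tr_tr, ← hTdef, ← tr_tr, h5, hTdef, ← tr_compl, tr_inv_tr]
        refine hA _ ?_ h4
        have := hMn.conj_mem (k⁻¹ * h) (M.mul_mem (M.inv_mem hk) hh) τ⁻¹
        rwa [inv_inv] at this
      have hAS : A S := ⟨1, M.one_mem, (tr_one S).symm⟩
      have hAS1 : A (tr h1 S) := ⟨h1, hh1, rfl⟩
      have hT1 : tr 1 T = T := tr_one T
      let r : Fin 2 ⊕ Fin 2 → Set G := Sum.elim ![S, tr h1 S] ![T, tr h2 T]
      have hrl : ∀ i : Fin 2, A (r (Sum.inl i)) := by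
        intro i
        fin_cases i
        · exact hAS
        · exact hAS1
      have hrr : ∀ i : Fin 2, ∃ h ∈ M, r (Sum.inr i) = tr h T := by
        intro i
        fin_cases i
        · exact ⟨1, M.one_mem, hT1.symm⟩
        · exact ⟨h2, hh2, rfl⟩
      have h6 := two_mul_card_le' hcompl r ?_ ?_ ?_
      · simp at h6
        omega
      · rintro (i | i) (k | k) h
        · congr 1
          fin_cases i <;> fin_cases k
          · rfl
          · exact absurd (show S = tr h1 S from h).symm h1'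
          · exact absurd (show tr h1 S = S from h) h1'
          · rfl
        · exfalso
          obtain ⟨h', hh', h3⟩ := hrr k
          apply hAT h' hh'
          rw [← h3, ← h]
          exact hrl i
        · exfalso
          obtain ⟨h', hh', h3⟩ := hrr i
          apply hAT h' hh'
          rw [← h3, h]
          exact hrl k
        · congr 1
          fin_cases i <;> fin_cases k
          · rfl
          · exact absurd (show T = tr h2 T from h).symm h2'
          · exact absurd (show tr h2 T = T from h) h2'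
          · rfl
      · rintro (i | i) (k | k) h
        · apply hAc _ (hrl k)
          rw [← h]
          exact hrl i
        · obtain ⟨h', hh', h3⟩ := hrr k
          apply hATc h' hh'
          rw [← h3, ← h]
          exact hrl i
        · obtain ⟨h', hh', h3⟩ := hrr i
          apply hATc h' hh'
          rw [← h3, h, compl_compl]
          exact hrl k
        · obtain ⟨h', hh', h3⟩ := hrr i
          obtain ⟨h'', hh'', h4⟩ := hrr k
          rw [h3, h4] at h
          exact hTT h' hh' h'' hh'' h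
      · rintro (i | i)
        · obtain ⟨h, hh, h3⟩ := hrl i
          rw [h3]
          exact hP h S hS
        · obtain ⟨h', hh', h3⟩ := hrr i
          rw [h3]
          exact hP h' T hTP
  have h1 : ∀ τ ∈ N, rtr τ (∑ h : M, rtr h.1 (eps S)) = ∑ h : M, rtr h.1 (eps S) := by
    rintro τ ⟨h1, hh1, h2⟩
    rw [map_sum]
    have h3 : ∀ h : M, rtr τ (rtr h.1 (eps S)) =
        rtr (MulAut.conjNormal τ h * ⟨h1, hh1⟩ : M).1 (eps S) := by
      intro h
      rw [rtr_rtr, rtr_eps, rtr_eps]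
      congr 1
      change tr (τ * h.1) S = tr (τ * h.1 * τ⁻¹ * h1) S
      rw [← tr_tr (τ * h.1 * τ⁻¹), ← h2, tr_tr]
      congr 1
      group
    rw [Finset.sum_congr rfl (fun h _ => h3 h)]
    exact Fintype.sum_equiv ((MulAut.conjNormal τ : M ≃* M).toEquiv.trans
      (Equiv.mulRight (⟨h1, hh1⟩ : M))) _ _ fun h => rfl
  have h2 : ∀ σ, (∑ h : M, rtr h.1 (eps S)) (c * σ) = -(∑ h : M, rtr h.1 (eps S)) σ := by
    intro σ
    rw [Finset.sum_apply, Finset.sum_apply, ← Finset.sum_neg_distrib]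
    refine Finset.sum_congr rfl fun h _ => ?_
    rw [rtr_apply, rtr_apply, ← eps_compl, ← hcS]
    rw [eps_tr, mul_assoc, hc, mul_assoc]
  rw [eq_smul_eps hN h1 h2]
  exact Submodule.smul_mem _ _ (eps_mem_QQ hN)

include hc hP hT hcompl hH hcard in
theorem absorb (M : Subgroup G) [hMn : M.Normal] (hM : ¬ ∀ h ∈ M, ∀ S ∈ P, tr h S = S)
    {F : G → ℚ} (hF : F ∈ VV P) (h : ∀ h ∈ M, F - rtr h F ∈ QQ c) : F ∈ QQ c := by
  classical
  have h1 : ∑ h : M, rtr h.1 F ∈ QQ c := by
    refine Submodule.span_induction (p := fun F _ => ∑ h : M, rtr h.1 F ∈ QQ c) ?_ ?_ ?_ ?_ hF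
    · rintro _ ⟨S, hS, rfl⟩
      exact sum_mem_QQ hc hP hT hcompl hH hcard M hM hS
    · simp only [map_zero, Finset.sum_const_zero]
      exact Submodule.zero_mem _
    · intro x y _ _ hx hy
      simp only [map_add, Finset.sum_add_distrib]
      exact Submodule.add_mem _ hx hy
    · intro a x _ hx
      simp only [map_smul, ← Finset.smul_sum]
      exact Submodule.smul_mem _ _ hx
  have h2 : ∑ h : M, (F - rtr h.1 F) ∈ QQ c := Submodule.sum_mem _ fun k _ => h k.1 k.2
  rw [Finset.sum_sub_distrib, Finset.sum_const, Finset.card_univ] at h2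
  have h3 := Submodule.add_mem _ h2 h1
  rw [sub_add_cancel, ← Nat.cast_smul_eq_nsmul ℚ] at h3
  have h4 := Submodule.smul_mem _ ((Fintype.card M : ℚ)⁻¹) h3
  rwa [smul_smul, inv_mul_cancel₀ (Nat.cast_ne_zero.2 Fintype.card_ne_zero), one_smul] at h4

include hc hP hT hcompl hH hcard in
theorem sep {ι : Type} [DecidableEq ι] (s : Finset ι) (M : ι → Subgroup G)
    (hN : ∀ i ∈ s, (M i).Normal) (hM : ∀ i ∈ s, ¬ ∀ h ∈ M i, ∀ S ∈ P, tr h S = S) :
    ∀ (F : G → ℚ) (f : ι → G → ℚ), F ∈ VV P → (∀ i ∈ s, ∀ h ∈ M i, rtr h (f i) = f i) →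
      F + ∑ i ∈ s, f i ∈ QQ c → F ∈ QQ c := by
  induction s using Finset.induction_on with
  | empty =>
    intro F f hF _ h
    rwa [Finset.sum_empty, add_zero] at h
  | insert i0 s hi0 ih =>
    intro F f hF hf h
    have := hN i0 (Finset.mem_insert_self _ _)
    refine absorb hc hP hT hcompl hH hcard (M i0) (hM i0 (Finset.mem_insert_self _ _)) hF ?_
    intro h1 hh1
    refine ih (fun i hi => hN i (Finset.mem_insert_of_mem hi))
      (fun i hi => hM i (Finset.mem_insert_of_mem hi)) (F - rtr h1 F)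
      (fun i => f i - rtr h1 (f i)) (Submodule.sub_mem _ hF (rtr_mem_VV hP h1 hF)) ?_ ?_
    · intro i hi k hk
      have hni := hN i (Finset.mem_insert_of_mem hi)
      rw [map_sub, hf i (Finset.mem_insert_of_mem hi) k hk, rtr_rtr,
        show k * h1 = h1 * (h1⁻¹ * k * h1) by group, ← rtr_rtr]
      have h2 := hni.conj_mem k hk h1⁻¹
      rw [inv_inv] at h2
      rw [hf i (Finset.mem_insert_of_mem hi) _ h2]
    · have h2 : F - rtr h1 F + ∑ i ∈ s, (f i - rtr h1 (f i)) =
          (F + ∑ i ∈ insert i0 s, f i) - rtr h1 (F + ∑ i ∈ insert i0 s, f i) := by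
        rw [Finset.sum_insert hi0, map_add, map_add, map_sum,
          hf i0 (Finset.mem_insert_self _ _) h1 hh1, Finset.sum_sub_distrib]
        abel
      rw [h2]
      exact Submodule.sub_mem _ h (rtr_mem_QQ hc h1 h)

end

end

end Pool.Agent.W547.LD.Comb
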