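import Pool.Agent.W547.LN.Defs
import Pool.Agent.W530.NF.Defs

/-!
# Tate classes on abelian varieties of CM type over number fields, and on ordinary abelian varieties
over finite fields
-/

namespace Pool.Agent.W547.LN

open Pool.Agent.H204R3.CM Pool.Agent.W547.KB Pool.Agent.W547.LD Pool.Agent.W530.NF

/-- `f` is a linear combination, with coefficients in `K = ℚ_ℓ`, of classes in the ring `DWRing X`
generated by divisors and by pull-backs of split Weil classes on fourfolds and sixfolds. -/
def IsGenerated {X : CMAV} {K V : Type} [Field K] [AddCommGroup V] [Module K V]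
    (C : Comparison X K V) {κ : Type} (f : V [⋀^κ]→ₗ[K] K) : Prop :=
  ∃ (r : ℕ) (c : Fin r → K) (g : Fin r → X.H1 [⋀^κ]→ₗ[ℚ] ℚ), (∀ i, DWRing X κ (g i)) ∧
    ∀ v : κ → X.H1, f (fun k => C.ι (v k)) = ∑ i, c i * (g i v : K)

/-- `γ ∈ G` is the Frobenius element of a place with residue field of `q` elements above a prime
number that splits completely in the CM fields of `X`: it acts on the rational Tate module `V` of
`X` by the multiplication by `π ∈ ∏ E_i`, with absolute values given by the formula of Shimura
and Taniyama, and `χ (γ) = q`. -/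
structure IsFrobeniusAt (X : CMAV) {K V G : Type} [Field K] [AddCommGroup V] [Module K V]
    [Group G] (C : Comparison X K V) (ρ : Representation K G V) (χ : G →* K)
    (w : AbsoluteValue ℂ ℝ) (q : ℕ) (π : X.H1) (γ : G) : Prop where
  ne_zero : q ≠ 0
  lt_one : w q < 1
  shimuraTaniyama : ShimuraTaniyama X w q π
  char_eq : χ γ = q
  apply_eq : ∀ x : X.H1, ρ γ (C.ι x) = C.ι (π * x)

/-- `f ∈ H^{2m}(A, ℚ_ℓ(m))` (an alternating form in `2 m` variables on the rational Tate module `V`
of `A`, `K = ℚ_ℓ`) is a Tate class: it is fixed by a subgroup of finite index of the Galois group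
`G`, that is, the elements `s` of this subgroup multiply `f` by `χ(s) ^ m`. -/
def IsTateClass {K V G : Type} [Field K] [AddCommGroup V] [Module K V] [Group G]
    (ρ : Representation K G V) (χ : G →* K) {m : ℕ} (f : V [⋀^Fin (2 * m)]→ₗ[K] K) : Prop :=
  ∃ Δ : Subgroup G, Δ.FiniteIndex ∧ ∀ s ∈ Δ, ∀ v, f (fun k => ρ s (v k)) = χ s ^ m * f v

/-- Let `A₀` be an ordinary abelian variety over the field with `q = p ^ a` elements, isogenous to a
product of abelian varieties `A₀ i` with complex multiplication by CM fields `E i` containing their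
Frobenius endomorphisms `π i`, and fix an isomorphism `ν` of an algebraic closure of `ℚ_p` with the
field of complex numbers. The canonical lift of `A₀` is (up to isogeny) the product `X` of the abelian
varieties with complex multiplication by the `E i` and the CM types `Φ i` which consist of the
embeddings `φ : E i → ℂ` such that `φ (π i)` has slope one (that is, the absolute value of `q`, after
the identification of the fields by `ν`); the other embeddings have slope zero. -/
structure IsCanonicalLift (p : ℕ) [Fact p.Prime] (a : ℕ) (ν : PadicAlgCl p ≃+* ℂ) (X : CMAV)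
    (π : X.H1) : Prop where
  slope_one : ∀ i, ∀ φ ∈ (X.factor i).Φ, ‖ν.symm (φ (π i))‖ = ‖(p : PadicAlgCl p) ^ a‖
  slope_zero : ∀ i, ∀ φ : (X.factor i).E →+* ℂ, φ ∉ (X.factor i).Φ → ‖ν.symm (φ (π i))‖ = 1

/-- Let `V` be the rational Tate module of `A₀` (`K = ℚ_ℓ`, identified with `K ⊗ H_1(X, ℚ)`) and `F`
the action of the Frobenius endomorphism: `F` is the multiplication by `π ∈ ∏ E i`. -/
def IsFrobeniusMap {X : CMAV} {K V : Type} [Field K] [AddCommGroup V] [Module K V]
    (C : Comparison X K V) (π : X.H1) (F : V →ₗ[K] V) : Prop :=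
  ∀ x : X.H1, F (C.ι x) = C.ι (π * x)

/-- `f` is a Tate class in `H^{2m}(A₀, ℚ_ℓ(m))` over the extension of degree `s`, an alternating
form in `2 m` variables on the Tate module: the `s`-th power of the Frobenius endomorphism multiplies
`f` by `q ^ {m s}`. -/
def IsTateClassOver {K V : Type} [Field K] [AddCommGroup V] [Module K V] (F : V →ₗ[K] V) (q s : ℕ)
    {m : ℕ} (f : V [⋀^Fin (2 * m)]→ₗ[K] K) : Prop :=
  ∀ v, f (fun k => (F ^ s) (v k)) = (q : K) ^ (m * s) * f v

end Pool.Agent.W547.LN
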