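import Pool.Agent.W547.LN.Family
import Pool.Agent.W547.LF.Blocks
import Pool.Agent.W547.LD.Main

/-!
# Decomposition of balanced families of half systems in several orbits
-/

set_option linter.unusedSectionVars false
set_option linter.unusedVariables false

namespace Pool.Agent.W547.LD

open NumberField Pool.Agent.H204R3.CM Pool.Agent.W547.KB Equiv Module

noncomputable section

variable {L : Type} [Field L] [NumberField L] [IsCMField L] [IsGalois ℚ L]

open Classical in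
theorem block_family (j : L →+* ℂ) (O : Finset (Set (Set (L ≃ₐ[ℚ] L))))
    (hO : ∀ Q ∈ O, Comb.IsOrbit (cc L) Q)
    (hdisj : ∀ Q ∈ O, ∀ Q' ∈ O, Q ≠ Q' → Disjoint Q Q')
    (hker : ∀ Q ∈ O, ∀ Q' ∈ O, 2 < Q.ncard → 2 < Q'.ncard → Comb.kerP Q = Comb.kerP Q' → Q = Q')
    (X : CMAV) (κ : Type) [Fintype κ] [DecidableEq κ] [Nonempty κ] (s : κ → Set (L ≃ₐ[ℚ] L))
    (hs : ∀ k, ∃ Q ∈ O, s k ∈ Q) (hbal : Balanced s) (hpair : ∀ k l, s l ≠ (s k)ᶜ) :
      ∃ (κ' : Type) (_ : Fintype κ') (_ : DecidableEq κ') (t : κ' → Set (L ≃ₐ[ℚ] L)),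
        Nonempty κ' ∧ Balanced t ∧ AlgX X j t ∧ ∀ k', cnt t (t k') ≤ cnt s (t k') := by
  obtain ⟨k0⟩ : Nonempty κ := inferInstance
  let P : Set (Set (L ≃ₐ[ℚ] L)) := {S | ∃ Q ∈ O, S ∈ Q}
  have hcompl : ∀ S ∈ P, Sᶜ ∈ P := by
    rintro S ⟨Q, hQ, hS⟩
    exact ⟨Q, hQ, (hO Q hQ).compl S hS⟩
  have ha := isRel_cnt hcompl s hs hbal
  set a : Set (L ≃ₐ[ℚ] L) → ℚ := fun S => cnt s S - cnt s Sᶜ with hadef
  have hone : ∀ S, 0 < a S → 1 ≤ cnt s S := by
    intro S hS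
    have h1 := cnt_nonneg s Sᶜ
    have h2 : 0 < cnt s S := by
      change 0 < cnt s S - cnt s Sᶜ at hS
      linarith
    rw [cnt_eq] at h2 ⊢
    have h3 : 0 < Nat.card {k // s k = S} := by exact_mod_cast h2
    exact_mod_cast h3
  have ha0 : a ≠ 0 := by
    intro h
    have h1 : a (s k0) = cnt s (s k0) := by
      change cnt s (s k0) - cnt s (s k0)ᶜ = _
      rw [cnt_eq_zero s _ (hpair k0), sub_zero]
    rw [h] at h1
    have h2 : 0 < cnt s (s k0) := (cnt_pos_iff s _).2 ⟨k0, rfl⟩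
    rw [← h1] at h2
    exact lt_irrefl _ h2
  have hc : ∀ g, cc L * g = g * cc L := fun g => cc_comm j g
  obtain ⟨N, x, y, hpx, hpy, hxpos, hypos, hN, hxH, hyH, hstx, hsty, hdist, hcard, hps⟩ :=
    Comb.exists_two hc O hO hdisj hker (P := P) (fun S => Iff.rfl) ha ha0
  let x' : Bool → Set (L ≃ₐ[ℚ] L) := fun b => Bool.rec y x b
  have hinj : Function.Injective (fun k : Orb N x' => k.2.1) := by
    rintro ⟨b, S⟩ ⟨b', S'⟩ h
    have h' : S.1 = S'.1 := h
    cases b <;> cases b'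
    · congr 1
      exact Subtype.ext h'
    · exact absurd h'.symm (hdist S' S)
    · exact absurd h' (hdist S S')
    · congr 1
      exact Subtype.ext h'
  have hbt : Balanced (fun k : Orb N x' => k.2.1) := by
    rw [balanced_iff]
    intro σ
    rw [Fintype.sum_sigma, Fintype.sum_bool]
    change Comb.psum N x σ + Comb.psum N y σ = 0
    by_cases h : σ ∈ N
    · rw [Comb.psum_mem h, Comb.psum_mem h, hps]
      ring
    · have h1 := Comb.psum_mem (x := x) (hN.2 σ h)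
      have h2 := Comb.psum_mem (x := y) (hN.2 σ h)
      rw [Comb.psum_c hxH] at h1
      rw [Comb.psum_c hyH] at h2
      linarith
  have hAt : AlgX X j (fun k : Orb N x' => k.2.1) := by
    refine algX_orb j N x' ?_ hN ?_ ?_ hbt X
    · rintro (_ | _)
      · exact hyH
      · exact hxH
    · rintro (_ | _)
      · exact hsty
      · exact hstx
    · rw [Fintype.card_sigma, Fintype.sum_bool]
      change Fintype.card (Comb.OrbT N x) + Fintype.card (Comb.OrbT N y) = 4 ∨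
        Fintype.card (Comb.OrbT N x) + Fintype.card (Comb.OrbT N y) = 6
      rwa [← Nat.card_eq_fintype_card, ← Nat.card_eq_fintype_card]
  refine ⟨Orb N x', inferInstance, inferInstance, fun k => k.2.1,
    ⟨⟨true, ⟨x, Comb.self_mem N x⟩⟩⟩, hbt, hAt, fun k' => ?_⟩
  have h1 : cnt (fun k : Orb N x' => k.2.1) k'.2.1 ≤ 1 := by
    rw [cnt_eq]
    have h3 : Nat.card {k : Orb N x' // k.2.1 = k'.2.1} ≤ 1 := by
      rw [Finite.card_le_one_iff_subsingleton]
      exact ⟨fun a b => Subtype.ext (hinj (a.2.trans b.2.symm))⟩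
    exact_mod_cast h3
  refine h1.trans (hone _ ?_)
  obtain ⟨b, S, τ, hτ, rfl⟩ := k'
  cases b
  · change 0 < a (Comb.tr τ y)
    rw [hpy τ hτ]
    exact hypos
  · change 0 < a (Comb.tr τ x)
    rw [hpx τ hτ]
    exact hxpos

/-- All balanced families are decomposed. -/
theorem algX_family (j : L →+* ℂ) (O : Finset (Set (Set (L ≃ₐ[ℚ] L))))
    (hO : ∀ Q ∈ O, Comb.IsOrbit (cc L) Q)
    (hdisj : ∀ Q ∈ O, ∀ Q' ∈ O, Q ≠ Q' → Disjoint Q Q')
    (hker : ∀ Q ∈ O, ∀ Q' ∈ O, 2 < Q.ncard → 2 < Q'.ncard → Comb.kerP Q = Comb.kerP Q' → Q = Q')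
    (X : CMAV) {κ : Type} [Fintype κ] [DecidableEq κ] (s : κ → Set (L ≃ₐ[ℚ] L))
    (hs : ∀ k, ∃ Q ∈ O, s k ∈ Q) (hbal : Balanced s) : AlgX X j s :=
  algX_of_blocks j X (fun S => ∃ Q ∈ O, S ∈ Q)
    (fun κ _ _ _ s hs hbal hpair => block_family j O hO hdisj hker X κ s hs hbal hpair)
    _ κ rfl s hs hbal

end

end Pool.Agent.W547.LD
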