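import Pool.Agent.W547.LN.Single

/-!
# Relations between half systems in several orbits
-/

set_option linter.unusedSectionVars false
set_option linter.unusedVariables false

namespace Pool.Agent.W547.LD.Comb

open Finset

noncomputable section

variable {G : Type} [Group G] [Fintype G]

/-- The kernel of the action on an orbit. -/
def kerP (Q : Set (Set G)) : Subgroup G where
  carrier := {τ | ∀ S ∈ Q, tr τ S = S}
  one_mem' := fun S _ => tr_one S
  mul_mem' := fun {τ τ'} h h' S hS => by rw [← tr_tr, h' S hS, h S hS]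
  inv_mem' := fun {τ} h S hS => by
    have h1 := h S hS
    calc tr τ⁻¹ S = tr τ⁻¹ (tr τ S) := by rw [h1]
      _ = S := tr_inv_tr τ S

theorem kerP_normal {Q : Set (Set G)} (hQ : Stable Q) : (kerP Q).Normal where
  conj_mem := fun τ hτ g S hS => by
    rw [mul_assoc, ← tr_tr, ← tr_tr, hτ _ (hQ g⁻¹ S hS), tr_tr_inv]

open Classical in
/-- The restriction of a function to an orbit. -/
def aQ (a : Set G → ℚ) (Q : Set (Set G)) : Set G → ℚ := fun S => if S ∈ Q then a S else 0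

/-- An orbit of half systems with at most six elements. -/
structure IsOrbit (c : G) (Q : Set (Set G)) : Prop where
  stable : Stable Q
  trans : Trans Q
  compl : ∀ S ∈ Q, Sᶜ ∈ Q
  half : ∀ S ∈ Q, Half c S
  card : Q.ncard ≤ 6

theorem IsOrbit.compl_mem_iff {c : G} {Q : Set (Set G)} (h : IsOrbit c Q) (S : Set G) :
    Sᶜ ∈ Q ↔ S ∈ Q :=
  ⟨fun h1 => by simpa using h.compl _ h1, h.compl S⟩

variable {c : G} (hc : ∀ g, c * g = g * c) (O : Finset (Set (Set G)))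
  (hO : ∀ Q ∈ O, IsOrbit c Q)
  (hdisj : ∀ Q ∈ O, ∀ Q' ∈ O, Q ≠ Q' → Disjoint Q Q')
  (hker : ∀ Q ∈ O, ∀ Q' ∈ O, 2 < Q.ncard → 2 < Q'.ncard → kerP Q = kerP Q' → Q = Q')
  {P : Set (Set G)} (hPO : ∀ S, S ∈ P ↔ ∃ Q ∈ O, S ∈ Q) {a : Set G → ℚ} (ha : IsRel P a)

include hdisj hPO ha in
theorem sum_FF : ∑ Q ∈ O, FF (aQ a Q) = 0 := by
  classical
  funext σ
  rw [Finset.sum_apply, Pi.zero_apply]
  change ∑ Q ∈ O, ∑ S : Set G, aQ a Q S * eps S σ = 0
  rw [Finset.sum_comm]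
  refine (Finset.sum_congr rfl fun S _ => ?_).trans (ha.rel σ)
  rw [← Finset.sum_mul]
  congr 1
  unfold aQ
  by_cases hS : S ∈ P
  · obtain ⟨Q, hQ, hSQ⟩ := (hPO S).1 hS
    rw [Finset.sum_eq_single Q]
    · rw [if_pos hSQ]
    · intro Q' hQ' hne
      rw [if_neg]
      intro h
      exact Set.disjoint_left.1 (hdisj Q hQ Q' hQ' hne.symm) hSQ h
    · intro h
      exact absurd hQ h
  · rw [ha.supp S hS]
    refine Finset.sum_eq_zero fun Q hQ => ?_
    rw [if_neg]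
    intro h
    exact hS ((hPO S).2 ⟨Q, hQ, h⟩)

include hc hO hdisj hker hPO ha in
/-- The parts of a relation are combinations of quadratic characters. -/
theorem part_mem_QQ : ∀ Q ∈ O, FF (aQ a Q) ∈ QQ c := by
  classical
  by_contra hcon
  push Not at hcon
  let B : Finset (Set (Set G)) := O.filter fun Q => FF (aQ a Q) ∉ QQ c
  have hB : B.Nonempty := by
    obtain ⟨Q, hQ, h⟩ := hcon
    exact ⟨Q, Finset.mem_filter.2 ⟨hQ, h⟩⟩
  obtain ⟨K, hKB, hmin⟩ := Finset.exists_min_image B (fun Q => Nat.card (kerP Q)) hB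
  obtain ⟨hK, hKn⟩ := Finset.mem_filter.1 hKB
  have hsuppQ : ∀ Q, ∀ S, S ∉ Q → aQ a Q S = 0 := fun Q S hS => if_neg hS
  have hlarge : ∀ Q ∈ B, 2 < Q.ncard := by
    intro Q hQ
    obtain ⟨hQO, hQn⟩ := Finset.mem_filter.1 hQ
    by_contra h
    push Not at h
    have h1 := hO Q hQO
    exact hQn (VV_le_QQ hc h1.stable h1.compl h1.half h (FF_mem_VV (hsuppQ Q)))
  have hKO := hO K hK
  apply hKn
  refine sep hc hKO.stable hKO.trans hKO.compl hKO.half hKO.card (B.erase K) kerP ?_ ?_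
    (FF (aQ a K)) (fun Q => FF (aQ a Q)) (FF_mem_VV (hsuppQ K)) ?_ ?_
  · intro Q hQ
    exact kerP_normal (hO Q (Finset.mem_filter.1 (Finset.mem_of_mem_erase hQ)).1).stable
  · intro Q hQ h
    have hQB := Finset.mem_of_mem_erase hQ
    have h1 : kerP Q ≤ kerP K := fun τ hτ S hS => h τ hτ S hS
    have h2 := hmin Q hQB
    have h3 : kerP Q = kerP K := Subgroup.eq_of_le_of_card_ge h1 h2
    exact Finset.ne_of_mem_erase hQ (hker Q (Finset.mem_filter.1 hQB).1 K hK (hlarge Q hQB)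
      (hlarge K hKB) h3)
  · intro Q hQ τ hτ
    rw [rtr_FF]
    congr 1
    funext S
    unfold aQ
    by_cases hS : S ∈ Q
    · have h1 : tr τ⁻¹ S = S := (kerP Q).inv_mem hτ S hS
      rw [h1]
    · rw [if_neg hS, if_neg]
      intro h
      apply hS
      have h1 := hτ _ h
      rw [tr_tr_inv] at h1
      rwa [← h1] at h
  · have h1 := sum_FF O hdisj hPO ha
    rw [← Finset.sum_filter_add_sum_filter_not O (fun Q => FF (aQ a Q) ∉ QQ c)] at h1
    have h2 : ∑ Q ∈ O.filter (fun Q => ¬ FF (aQ a Q) ∉ QQ c), FF (aQ a Q) ∈ QQ c := by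
      refine Submodule.sum_mem _ fun Q hQ => ?_
      exact not_not.1 (Finset.mem_filter.1 hQ).2
    have h3 : FF (aQ a K) + ∑ Q ∈ B.erase K, FF (aQ a Q) = ∑ Q ∈ B, FF (aQ a Q) :=
      Finset.add_sum_erase B (fun Q => FF (aQ a Q)) hKB
    have h4 : ∑ Q ∈ B, FF (aQ a Q) = -∑ Q ∈ O.filter (fun Q => ¬ FF (aQ a Q) ∉ QQ c),
        FF (aQ a Q) := eq_neg_of_add_eq_zero_left h1
    change FF (aQ a K) + ∑ Q ∈ B.erase K, FF (aQ a Q) ∈ QQ c
    rw [h3, h4]
    exact Submodule.neg_mem _ h2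


include hc hO hdisj hker hPO ha in
/-- **The block of a relation.** -/
theorem exists_two (h0 : a ≠ 0) : ∃ (N : Subgroup G) (x y : Set G),
    (∀ τ ∈ N, a (tr τ x) = a x) ∧ (∀ τ ∈ N, a (tr τ y) = a y) ∧ 0 < a x ∧ 0 < a y ∧
    Imag c N ∧ Half c x ∧ Half c y ∧ stb x ≤ N ∧ stb y ≤ N ∧
    (∀ (S : OrbT N x) (T : OrbT N y), S.1 ≠ T.1) ∧
    (Nat.card (OrbT N x) + Nat.card (OrbT N y) = 4 ∨
      Nat.card (OrbT N x) + Nat.card (OrbT N y) = 6) ∧
    by classical exact (psum N x 1 = -psum N y 1) := by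
  classical
  have hpart := part_mem_QQ hc O hO hdisj hker hPO ha
  have hsuppQ : ∀ Q, ∀ S, S ∉ Q → aQ a Q S = 0 := fun Q S hS => if_neg hS
  have hoddQ : ∀ Q ∈ O, ∀ S, aQ a Q Sᶜ = -aQ a Q S := by
    intro Q hQ S
    unfold aQ
    by_cases h : S ∈ Q
    · rw [if_pos h, if_pos ((hO Q hQ).compl S h), ha.odd]
    · rw [if_neg h, if_neg (fun h1 => h (((hO Q hQ).compl_mem_iff S).1 h1)), neg_zero]
  -- a positive element in each non-zero orbit
  have hgood : ∀ Q ∈ O, (∃ S ∈ Q, a S ≠ 0) → ∃ x ∈ Q, 0 < a x ∧ ∃ N, Good c (aQ a Q) x N := by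
    rintro Q hQ ⟨S, hS, hne⟩
    have hx : ∃ x ∈ Q, 0 < a x := by
      rcases lt_or_gt_of_ne hne with h | h
      · exact ⟨Sᶜ, (hO Q hQ).compl S hS, by rw [ha.odd]; linarith⟩
      · exact ⟨S, hS, h⟩
    obtain ⟨x, hx, hpos⟩ := hx
    have hQO := hO Q hQ
    obtain ⟨N, hN⟩ := exists_good hc hQO.stable hQO.trans hQO.compl hQO.half hQO.card
      (hsuppQ Q) (hoddQ Q hQ) (hpart Q hQ) (x := x) (by
        unfold aQ
        rw [if_pos hx]
        exact hpos.ne')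
    exact ⟨x, hx, hpos, N, hN⟩
  have haQ : ∀ Q ∈ O, ∀ x ∈ Q, aQ a Q x = a x := fun Q _ x hx => if_pos hx
  -- the first orbit
  obtain ⟨S0, hS0⟩ := Function.ne_iff.1 h0
  have hS0P : S0 ∈ P := by
    by_contra h
    exact hS0 (ha.supp S0 h)
  obtain ⟨Q0, hQ0, hS0Q⟩ := (hPO S0).1 hS0P
  obtain ⟨x, hx, hxpos, N, hN⟩ := hgood Q0 hQ0 ⟨S0, hS0Q, hS0⟩
  -- the scalar products with the character
  let t : Set (Set G) → ℚ := fun Q => dot (FF (aQ a Q)) (chi N)
  have hsum : ∑ Q ∈ O, t Q = 0 := by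
    have h1 := dot_sum O (fun Q => FF (aQ a Q)) (chi N)
    rw [sum_FF O hdisj hPO ha, dot_zero] at h1
    exact h1.symm
  have hG : (0 : ℚ) < Fintype.card G := Nat.cast_pos.2 Fintype.card_pos
  have hval : ∀ Q ∈ O, ∀ z ∈ Q, Good c (aQ a Q) z N →
      t Q = 2 * a z * psum N z 1 * Fintype.card G := by
    intro Q hQ z hz hg
    change dot (FF (aQ a Q)) (chi N) = _
    have h1 := hg.FF_eq
    rw [h1, dot_smul, dot_chi_self, haQ Q hQ z hz]
  have ht0 : t Q0 ≠ 0 := by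
    rw [hval Q0 hQ0 x hx hN]
    have h1 : psum N x 1 ≠ 0 := by
      intro h
      have h2 := hN.abs
      rw [h] at h2
      norm_num at h2
    exact mul_ne_zero (mul_ne_zero (mul_ne_zero two_ne_zero hxpos.ne') h1) hG.ne'
  obtain ⟨Q1, hQ1, ht1⟩ : ∃ Q1 ∈ O, t Q1 * t Q0 < 0 := by
    by_contra hcon
    push Not at hcon
    have h1 : ∑ Q ∈ O, t Q * t Q0 = 0 := by
      rw [← Finset.sum_mul, hsum, zero_mul]
    have h2 := (Finset.sum_eq_zero_iff_of_nonneg hcon).1 h1 Q0 hQ0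
    exact ht0 (mul_self_eq_zero.1 h2)
  have hne : Q1 ≠ Q0 := by
    rintro rfl
    nlinarith [mul_self_nonneg (t Q1)]
  have hQ1ne : ∃ S ∈ Q1, a S ≠ 0 := by
    by_contra hcon
    push Not at hcon
    have h1 : t Q1 = 0 := by
      change dot (FF (aQ a Q1)) (chi N) = 0
      have h2 : FF (aQ a Q1) = 0 := by
        funext σ
        change ∑ S : Set G, aQ a Q1 S * eps S σ = 0
        refine Finset.sum_eq_zero fun S _ => ?_
        unfold aQ
        by_cases h : S ∈ Q1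
        · rw [if_pos h, hcon S h, zero_mul]
        · rw [if_neg h, zero_mul]
      rw [h2, dot_zero]
    rw [h1, zero_mul] at ht1
    exact lt_irrefl _ ht1
  obtain ⟨y, hy, hypos, N', hN'⟩ := hgood Q1 hQ1 hQ1ne
  have hNN : N = N' := by
    by_contra h
    have h1 : t Q1 = 0 := by
      change dot (FF (aQ a Q1)) (chi N) = 0
      have h2 := hN'.FF_eq
      rw [h2, dot_smul, dot_comm, dot_chi hc hN.imag hN'.imag h, mul_zero]
    rw [h1, zero_mul] at ht1
    exact lt_irrefl _ ht1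
  subst hNN
  have hpx : ∀ τ ∈ N, a (tr τ x) = a x := by
    intro τ hτ
    have h1 := hN.pos τ hτ x
    rwa [haQ Q0 hQ0 _ ((hO Q0 hQ0).stable τ x hx), haQ Q0 hQ0 x hx] at h1
  have hpy : ∀ τ ∈ N, a (tr τ y) = a y := by
    intro τ hτ
    have h1 := hN'.pos τ hτ y
    rwa [haQ Q1 hQ1 _ ((hO Q1 hQ1).stable τ y hy), haQ Q1 hQ1 y hy] at h1
  have hdist : ∀ (S : OrbT N x) (T : OrbT N y), S.1 ≠ T.1 := by
    rintro ⟨S, τ, hτ, rfl⟩ ⟨T, τ', hτ', rfl⟩ h
    have h1 : tr τ x ∈ Q0 := (hO Q0 hQ0).stable τ x hx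
    have h2 : tr τ' y ∈ Q1 := (hO Q1 hQ1).stable τ' y hy
    change tr τ x = tr τ' y at h
    rw [← h] at h2
    exact Set.disjoint_left.1 (hdisj Q1 hQ1 Q0 hQ0 hne) h2 h1
  refine ⟨N, x, y, hpx, hpy, hxpos, hypos, hN.imag, hN.half, hN'.half, hN.stb_le, hN'.stb_le,
    hdist, ?_, ?_⟩
  · rcases hN.card with ⟨h1, h2⟩ | h1 <;> rcases hN'.card with ⟨h3, h4⟩ | h3
    · exfalso
      have key : ∀ Q ∈ O, ∀ z ∈ Q, (z = {σ | σ ∈ N} ∨ z = {σ | σ ∈ N}ᶜ) → {σ | σ ∈ N} ∈ Q := by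
        intro Q hQ z hz h
        rcases h with h | h
        · rw [← h]
          exact hz
        · rw [← (hO Q hQ).compl_mem_iff, ← h]
          exact hz
      exact Set.disjoint_left.1 (hdisj Q1 hQ1 Q0 hQ0 hne) (key Q1 hQ1 y hy h4) (key Q0 hQ0 x hx h2)
    · left
      omega
    · left
      omega
    · right
      omega
  · rw [hval Q0 hQ0 x hx hN, hval Q1 hQ1 y hy hN'] at ht1
    have h1 := hN.abs
    have h2 := hN'.abs
    have h3 : (a x * a y * (Fintype.card G : ℚ) ^ 2) * (psum N x 1 * psum N y 1) < 0 := by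
      nlinarith
    have h4 : 0 < a x * a y * (Fintype.card G : ℚ) ^ 2 := by positivity
    have h5 : psum N x 1 * psum N y 1 < 0 := by
      by_contra h
      push Not at h
      have := mul_nonneg h4.le h
      linarith
    rcases (abs_eq (by norm_num : (0 : ℚ) ≤ 1)).1 h1 with h6 | h6 <;>
      rcases (abs_eq (by norm_num : (0 : ℚ) ≤ 1)).1 h2 with h7 | h7
    · exfalso
      rw [h6, h7] at h5
      norm_num at h5
    · rw [h6, h7]
      norm_num
    · rw [h6, h7]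
    · exfalso
      rw [h6, h7] at h5
      norm_num at h5

end

end Pool.Agent.W547.LD.Comb
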