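import Pool.Agent.W547.LN.Closure

/-!
# Hodge classes on abelian varieties of CM type with simple factors of dimension at most three
-/

set_option linter.unusedSectionVars false
set_option linter.unusedVariables false

namespace Pool.Agent.W547.LN

open NumberField Pool.Agent.H204R3.CM Pool.Agent.W547.KB Pool.Agent.W547.LD Equiv Module

noncomputable section

theorem ring_small (X : CMAV) (hX : SmallFactors X) {κ : Type} [Finite κ]
    (f : X.H1 [⋀^κ]→ₗ[ℚ] ℚ) (hf : IsHodge X.per f) : DWRing X κ f := by
  classical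
  refine ring_of_mono X ?_ f hf
  intro L _ _ _ _ j hj _ _ I hb
  let O : Finset (Set (Set (L ≃ₐ[ℚ] L))) :=
    Finset.univ.image fun i : X.I => Set.range (hs (X.factor i) j)
  have hmem : ∀ Q ∈ O, ∃ i, Q = Set.range (hs (X.factor i) j) := by
    intro Q hQ
    obtain ⟨i, -, h⟩ := Finset.mem_image.1 hQ
    exact ⟨i, h.symm⟩
  refine algX_family j O ?_ ?_ ?_ X (fun k => St j (I k)) ?_ hb I (fun k => rfl)
  · intro Q hQ
    obtain ⟨i, rfl⟩ := hmem Q hQ
    refine ⟨stable_hs (X.factor i) j, trans_hs (X.factor i) j, compl_hs (X.factor i) j, ?_,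
      (ncard_hs (X.factor i) j (hj i)).trans (hX.degree i)⟩
    rintro _ ⟨φ, rfl⟩
    exact isHalf_hs (X.factor i) j φ
  · intro Q hQ Q' hQ' hne
    obtain ⟨i, rfl⟩ := hmem Q hQ
    obtain ⟨k, rfl⟩ := hmem Q' hQ'
    rw [Set.disjoint_left]
    intro S hS hS'
    apply hne
    ext T
    constructor
    · intro hT
      obtain ⟨g, hg⟩ := trans_hs (X.factor i) j S hS T hT
      rw [← hg]
      exact stable_hs (X.factor k) j g S hS'
    · intro hT
      obtain ⟨g, hg⟩ := trans_hs (X.factor k) j S hS' T hT
      rw [← hg]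
      exact stable_hs (X.factor i) j g S hS
  · intro Q hQ Q' hQ' h2 h2' hker
    obtain ⟨i, rfl⟩ := hmem Q hQ
    obtain ⟨k, rfl⟩ := hmem Q' hQ'
    have hcl := le_antisymm
      (normalClosure_le (X.factor i) (X.factor k) j (hj i)
        (hs_injective (X.factor i) j (hj i) (hX.degree i) h2) hker.ge)
      (normalClosure_le (X.factor k) (X.factor i) j (hj k)
        (hs_injective (X.factor k) j (hj k) (hX.degree k) h2') hker.le)
    rcases hX.closure i k hcl with h | h
    · exact range_eq_of_galois (X.factor i) (X.factor k) j (hj i) (hX.degree i) h2 h2' hker h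
    · exact range_eq_of_sameType (X.factor i) (X.factor k) j h
  · intro k
    exact ⟨_, Finset.mem_image.2 ⟨(I k).1, Finset.mem_univ _, rfl⟩, (I k).2, rfl⟩

theorem isHodge_iff_ring_small (X : CMAV) (hX : SmallFactors X) {κ : Type} [Finite κ]
    (f : X.H1 [⋀^κ]→ₗ[ℚ] ℚ) : IsHodge X.per f ↔ DWRing X κ f :=
  ⟨ring_small X hX f, isHodge_of_ring⟩

/-- The condition holds for the powers. -/
theorem SmallFactors.power {X : CMAV} (hX : SmallFactors X) (n : ℕ) :
    SmallFactors ⟨X.I × Fin n, fun p => X.factor p.1⟩ where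
  degree := fun p => hX.degree p.1
  closure := fun p q => hX.closure p.1 q.1

/-- The condition holds if the CM fields are Galois extensions of `ℚ` of degree at most six. -/
theorem SmallFactors.of_galois {X : CMAV} (h6 : ∀ i, finrank ℚ (X.factor i).E ≤ 6)
    (hG : ∀ i, IsGalois ℚ (X.factor i).E) : SmallFactors X where
  degree := h6
  closure := fun i _ _ => Or.inl (hG i)

end

end Pool.Agent.W547.LN
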