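import Pool.Agent.W547.LN.Sep

/-!
# A single orbit of half systems whose function is a combination of quadratic characters
-/

set_option linter.unusedSectionVars false
set_option linter.unusedVariables false

namespace Pool.Agent.W547.LD.Comb

open Finset

noncomputable section

variable {G : Type} [Group G] [Fintype G]

open Classical in
/-- The function on `G` belonging to a function on the subsets of `G`. -/
def FF (a : Set G → ℚ) : G → ℚ := fun σ => ∑ S : Set G, a S * eps S σ

theorem FF_eq (a : Set G → ℚ) : FF a = by classical exact ∑ S : Set G, a S • eps S := by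
  classical
  funext σ
  rw [Finset.sum_apply]
  rfl

theorem FF_mem_VV {P : Set (Set G)} {a : Set G → ℚ} (ha : ∀ S, S ∉ P → a S = 0) :
    FF a ∈ VV P := by
  classical
  rw [FF_eq]
  refine Submodule.sum_mem _ fun S _ => ?_
  by_cases hS : S ∈ P
  · exact Submodule.smul_mem _ _ (eps_mem_VV hS)
  · rw [ha S hS, zero_smul]
    exact Submodule.zero_mem _

theorem rtr_FF (τ : G) (a : Set G → ℚ) : rtr τ (FF a) = FF (fun S => a (tr τ⁻¹ S)) := by
  classical
  funext σ
  change ∑ S : Set G, a S * eps S (σ * τ) = ∑ S : Set G, a (tr τ⁻¹ S) * eps S σ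
  refine Fintype.sum_equiv (trE τ) _ _ fun S => ?_
  change _ = a (tr τ⁻¹ (tr τ S)) * eps (tr τ S) σ
  rw [tr_inv_tr, eps_tr]

/-- The scalar product. -/
def dot (F F' : G → ℚ) : ℚ := ∑ σ, F σ * F' σ

theorem dot_add (F F' F'' : G → ℚ) : dot (F + F') F'' = dot F F'' + dot F' F'' := by
  unfold dot
  rw [← Finset.sum_add_distrib]
  refine Finset.sum_congr rfl fun σ _ => ?_
  rw [Pi.add_apply, add_mul]

theorem dot_smul (q : ℚ) (F F' : G → ℚ) : dot (q • F) F' = q * dot F F' := by
  unfold dot
  rw [Finset.mul_sum]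
  refine Finset.sum_congr rfl fun σ _ => ?_
  rw [Pi.smul_apply, smul_eq_mul, mul_assoc]

theorem dot_sub (F F' F'' : G → ℚ) : dot (F - F') F'' = dot F F'' - dot F' F'' := by
  unfold dot
  rw [← Finset.sum_sub_distrib]
  refine Finset.sum_congr rfl fun σ _ => ?_
  rw [Pi.sub_apply, sub_mul]

theorem dot_sum {ι : Type} (s : Finset ι) (F : ι → G → ℚ) (F' : G → ℚ) :
    dot (∑ i ∈ s, F i) F' = ∑ i ∈ s, dot (F i) F' := by
  unfold dot
  rw [Finset.sum_comm]
  refine Finset.sum_congr rfl fun σ _ => ?_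
  rw [Finset.sum_apply, Finset.sum_mul]

theorem dot_zero (F' : G → ℚ) : dot 0 F' = 0 := by
  unfold dot
  simp

theorem dot_rtr (g : G) (F F' : G → ℚ) : dot (rtr g F) (rtr g F') = dot F F' := by
  unfold dot
  exact Fintype.sum_equiv (Equiv.mulRight g) _ _ fun σ => rfl

theorem dot_self {F : G → ℚ} (h : dot F F = 0) : F = 0 := by
  funext σ
  have h1 := (Finset.sum_eq_zero_iff_of_nonneg (fun σ _ => mul_self_nonneg (F σ))).1 h σ
    (Finset.mem_univ _)
  exact mul_self_eq_zero.1 h1

/-- The quadratic character. -/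
abbrev chi (N : Subgroup G) : G → ℚ := eps {σ | σ ∈ N}

theorem rtr_chi {c : G} (hc : ∀ g, c * g = g * c) {N : Subgroup G} (hN : Imag c N) (g : G) :
    rtr g (chi N) = chi N g • chi N := by
  rw [rtr_eps]
  by_cases h : g ∈ N
  · rw [Imag.tr_mem (c := c) h, show chi N g = 1 from if_pos h, one_smul]
  · rw [hN.tr_not_mem hc h, show chi N g = -1 from if_neg h, eps_compl', neg_one_smul]

theorem dot_chi_self (N : Subgroup G) : dot (chi N) (chi N) = Fintype.card G := by
  unfold dot
  have h1 : ∀ σ, chi N σ * chi N σ = 1 := by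
    intro σ
    rcases eps_cases {σ | σ ∈ N} σ with h | h <;> rw [chi, h] <;> norm_num
  rw [Finset.sum_congr rfl (fun σ _ => h1 σ), Finset.sum_const, Finset.card_univ, nsmul_eq_mul,
    mul_one]

theorem dot_comm (F F' : G → ℚ) : dot F F' = dot F' F := by
  unfold dot
  refine Finset.sum_congr rfl fun σ _ => mul_comm _ _

theorem dot_chi {c : G} (hc : ∀ g, c * g = g * c) {N N' : Subgroup G} (hN : Imag c N)
    (hN' : Imag c N') (h : N ≠ N') : dot (chi N) (chi N') = 0 := by
  obtain ⟨g, hg⟩ : ∃ g, ¬ (g ∈ N ↔ g ∈ N') := by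
    by_contra hcon
    push Not at hcon
    exact h (Subgroup.ext fun g => hcon g)
  have h1 := dot_rtr g (chi N) (chi N')
  rw [rtr_chi hc hN, rtr_chi hc hN', dot_smul, dot_comm (chi N), dot_smul, dot_comm (chi N')] at h1
  have h2 : chi N g * chi N' g = -1 := by
    by_cases h3 : g ∈ N
    · have h4 : g ∉ N' := fun h4 => hg (iff_of_true h3 h4)
      rw [show chi N g = 1 from if_pos h3, show chi N' g = -1 from if_neg h4]
      norm_num
    · have h4 : g ∈ N' := by
        by_contra h4
        exact hg (iff_of_false h3 h4)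
      rw [show chi N g = -1 from if_neg h3, show chi N' g = 1 from if_pos h4]
      norm_num
  rw [← mul_assoc, h2] at h1
  linarith

theorem QQ_ext {c : G} {F : G → ℚ} (hF : F ∈ QQ c)
    (h : ∀ N : Subgroup G, Imag c N → dot F (chi N) = 0) : F = 0 := by
  apply dot_self
  refine Submodule.span_induction (p := fun F' _ => dot F F' = 0) ?_ ?_ ?_ ?_ hF
  · rintro _ ⟨N, hN, rfl⟩
    exact h N hN
  · rw [dot_comm, dot_zero]
  · intro x y _ _ hx hy
    rw [dot_comm, dot_add, dot_comm x, dot_comm y, hx, hy, add_zero]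
  · intro a x _ hx
    rw [dot_comm, dot_smul, dot_comm x, hx, mul_zero]

section

variable {c : G} (hc : ∀ g, c * g = g * c) {P : Set (Set G)} (hP : Stable P) (hT : Trans P)
  (hcompl : ∀ S ∈ P, Sᶜ ∈ P) (hH : ∀ S ∈ P, Half c S) (hcard : P.ncard ≤ 6)

include hcard in
theorem FF_inj {a b : Set G → ℚ} (ha : ∀ S, S ∉ P → a S = 0) (hb : ∀ S, S ∉ P → b S = 0)
    (ha1 : ∀ S, a Sᶜ = -a S) (hb1 : ∀ S, b Sᶜ = -b S) (h : FF a = FF b) : a = b := by
  classical
  have h1 : IsRel P (a - b) :=
    { supp := fun S hS => by rw [Pi.sub_apply, ha S hS, hb S hS, sub_zero]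
      odd := fun S => by rw [Pi.sub_apply, Pi.sub_apply, ha1, hb1]; ring
      rel := fun σ => by
        have h2 := congrFun h σ
        unfold FF at h2
        simp only [Pi.sub_apply, sub_mul, Finset.sum_sub_distrib]
        rw [h2, sub_self] }
  have h2 : a - b = 0 := by
    refine h1.eq_zero_of_card ((Set.ncard_le_ncard ?_ (Set.toFinite _)).trans hcard)
    intro S hS
    by_contra h3
    exact hS (h1.supp S h3)
  exact sub_eq_zero.1 h2

include hc hT in
/-- The stabilizers are contained in `N`. -/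
theorem stb_le_of_dot {N : Subgroup G} (hN : Imag c N) {F : G → ℚ} (hF : F ∈ VV P)
    (h : dot F (chi N) ≠ 0) (hH : ∀ S ∈ P, Half c S) {x : Set G} (hx : x ∈ P) : stb x ≤ N := by
  intro τ hτ
  by_contra hτN
  apply h
  refine Submodule.span_induction (p := fun F _ => dot F (chi N) = 0) ?_ ?_ ?_ ?_ hF
  · rintro _ ⟨S, hS, rfl⟩
    obtain ⟨g, hg⟩ := hT x hx S hS
    have h1 : tr (g * (c * τ) * g⁻¹) S = Sᶜ := by
      rw [← hg, tr_tr, inv_mul_cancel_right, ← tr_tr, ← tr_tr c, show tr τ x = x from hτ,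
        tr_c hc (hH x hx), tr_compl]
    have h2 : g * (c * τ) * g⁻¹ ∈ N := by
      rw [hN.mul_mem_iff hc, hN.mul_mem_iff hc, inv_mem_iff]
      have h3 : c * τ ∈ N := hN.2 τ hτN
      tauto
    have h4 := dot_rtr (g * (c * τ) * g⁻¹) (eps S) (chi N)
    rw [rtr_eps, h1, rtr_chi hc hN, show chi N (g * (c * τ) * g⁻¹) = 1 from if_pos h2, one_smul,
      eps_compl', ← neg_one_smul ℚ, dot_smul] at h4
    linarith
  · exact dot_zero _
  · intro x y _ _ hx hy
    rw [dot_add, hx, hy, add_zero]
  · intro a x _ hx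
    rw [dot_smul, hx, mul_zero]

/-- No two elements of the orbit are complementary. -/
theorem orb_ne_compl' {c : G} {N : Subgroup G} (hc : ∀ g, c * g = g * c) (hN : Imag c N) {x : Set G}
    (hx : Half c x) (hst : stb x ≤ N) (S T : OrbT N x) : S.1 ≠ (T.1)ᶜ := by
  obtain ⟨S, τ, hτ, rfl⟩ := S
  obtain ⟨T, τ', hτ', rfl⟩ := T
  intro h
  change tr τ x = (tr τ' x)ᶜ at h
  rw [← tr_c hc (hx.tr τ')] at h
  have h1 : τ⁻¹ * (c * τ') ∈ stb x := by
    change tr (τ⁻¹ * (c * τ')) x = x
    rw [← tr_tr, ← tr_tr, ← h, tr_inv_tr]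
  have h2 := hst h1
  rw [N.mul_mem_cancel_left (N.inv_mem hτ), N.mul_mem_cancel_right hτ'] at h2
  exact hN.1 h2

/-- The number of elements of the orbit is even, if the stabilizer is contained in a second
subgroup. -/
theorem even_card_orb {c : G} {N N' : Subgroup G} (hc : ∀ g, c * g = g * c) (hN : Imag c N)
    (hN' : Imag c N') (hne : N ≠ N') {x : Set G} (hst : stb x ≤ N') [Fintype (OrbT N x)] :
    Even (Fintype.card (OrbT N x)) := by
  obtain ⟨g, hg, hg'⟩ : ∃ g, g ∈ N ∧ g ∉ N' := by
    by_contra hcon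
    push Not at hcon
    apply hne
    refine le_antisymm hcon fun g hg => ?_
    by_contra h
    have h1 := hcon _ (hN.2 g h)
    rw [N'.mul_mem_cancel_right hg] at h1
    exact hN'.1 h1
  refine even_of_sum (fun S : OrbT N x => tr S.2.choose {σ | σ ∈ N'}) 1 ?_
  have h1 : ∀ S : OrbT N x, eps (tr S.2.choose {σ | σ ∈ N'}) 1 = chi N' S.2.choose := by
    intro S
    rw [eps_tr, one_mul]
  rw [Finset.sum_congr rfl (fun S _ => h1 S)]
  have h2 : ∀ S : OrbT N x, chi N' (actT N x ⟨g, hg⟩ S).2.choose = -chi N' S.2.choose := by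
    intro S
    obtain ⟨h3, h4⟩ := S.2.choose_spec
    obtain ⟨h5, h6⟩ := (actT N x ⟨g, hg⟩ S).2.choose_spec
    set τ := S.2.choose
    set τ' := (actT N x ⟨g, hg⟩ S).2.choose
    have h7 : tr τ' x = tr (g * τ) x := by
      rw [h6, ← tr_tr, h4]
      rfl
    have h8 : (g * τ)⁻¹ * τ' ∈ N' := by
      apply hst
      change tr ((g * τ)⁻¹ * τ') x = x
      rw [← tr_tr, h7, tr_inv_tr]
    rw [hN'.mul_mem_iff hc, inv_mem_iff, hN'.mul_mem_iff hc] at h8
    unfold chi eps
    by_cases h9 : τ ∈ N'
    · rw [if_pos (show τ ∈ {σ | σ ∈ N'} from h9), if_neg]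
      intro h10
      have h11 : τ' ∈ N' := h10
      tauto
    · rw [if_neg (show τ ∉ {σ | σ ∈ N'} from h9), if_pos, neg_neg]
      change τ' ∈ N'
      tauto
  have h3 : ∑ S : OrbT N x, chi N' S.2.choose =
      ∑ S : OrbT N x, chi N' (actT N x ⟨g, hg⟩ S).2.choose :=
    (Fintype.sum_bijective (actT N x ⟨g, hg⟩) (actT_bijective ⟨g, hg⟩) _ _ fun S => rfl).symm
  rw [Finset.sum_congr rfl (fun S _ => h2 S), Finset.sum_neg_distrib] at h3
  linarith

/-- The structure of a function on one orbit. -/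
structure Good (c : G) (a : Set G → ℚ) (x : Set G) (N : Subgroup G) : Prop where
  imag : Imag c N
  half : Half c x
  stb_le : stb x ≤ N
  pos : ∀ τ ∈ N, ∀ S, a (tr τ S) = a S
  card : Nat.card (OrbT N x) = 1 ∧ (x = {σ | σ ∈ N} ∨ x = {σ | σ ∈ N}ᶜ) ∨ Nat.card (OrbT N x) = 3
  abs : by classical exact |psum N x 1| = 1
  FF_eq : by classical exact FF a = (2 * a x * psum N x 1) • chi N

include hc hP hT hcompl hH hcard in
theorem exists_good {a : Set G → ℚ} (ha : ∀ S, S ∉ P → a S = 0) (ha1 : ∀ S, a Sᶜ = -a S)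
    (hF : FF a ∈ QQ c) {x : Set G} (hx : a x ≠ 0) : ∃ N, Good c a x N := by
  classical
  have hxP : x ∈ P := by
    by_contra h
    exact hx (ha x h)
  have hxH := hH x hxP
  have hF0 : FF a ≠ 0 := by
    intro h
    have h1 : FF (0 : Set G → ℚ) = 0 := by
      funext σ
      change ∑ S : Set G, (0 : ℚ) * eps S σ = 0
      simp
    have h2 := FF_inj hcard ha (fun _ _ => rfl) ha1 (fun _ => by simp) (h.trans h1.symm)
    rw [h2] at hx
    exact hx rfl
  obtain ⟨N, hN, hdot⟩ : ∃ N : Subgroup G, Imag c N ∧ dot (FF a) (chi N) ≠ 0 := by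
    by_contra hcon
    push Not at hcon
    exact hF0 (QQ_ext hF hcon)
  have hst : stb x ≤ N := stb_le_of_dot hc hT hN (FF_mem_VV ha) hdot hH hxP
  have hnc := orb_ne_compl' hc hN hxH hst
  have h6 := two_mul_card_le' hcompl (fun T : OrbT N x => (T.1 : Set G)) Subtype.val_injective hnc
    (fun T => by
      obtain ⟨τ, -, h⟩ := T.2
      change T.1 ∈ P
      rw [← h]
      exact hP τ x hxP)
  have hcardO : Nat.card (OrbT N x) = 1 ∧ (x = {σ | σ ∈ N} ∨ x = {σ | σ ∈ N}ᶜ) ∨
      Nat.card (OrbT N x) = 3 := by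
    by_cases h1 : x = {σ | σ ∈ N} ∨ x = {σ | σ ∈ N}ᶜ
    · left
      refine ⟨?_, h1⟩
      rw [Nat.card_eq_one_iff_unique]
      have h2 : ∀ τ ∈ N, tr τ x = x := by
        intro τ hτ
        rcases h1 with h1 | h1
        · rw [h1, Imag.tr_mem (c := c) hτ]
        · rw [h1, tr_compl, Imag.tr_mem (c := c) hτ]
      refine ⟨⟨fun S T => ?_⟩, ⟨⟨x, self_mem N x⟩⟩⟩
      obtain ⟨S, τ, hτ, rfl⟩ := S
      obtain ⟨T, τ', hτ', rfl⟩ := T
      apply Subtype.ext
      change tr τ x = tr τ' x
      rw [h2 τ hτ, h2 τ' hτ']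
    · right
      push Not at h1
      have h2 := three_le hc hN hxH hnc h1.1 h1.2
      rw [Nat.card_eq_fintype_card]
      omega
  have habs : |psum N x 1| = 1 := by
    obtain ⟨m, hm, hm1, -, -⟩ := sum_eps (fun S : OrbT N x => S.1) 1
    have hm2 : psum N x 1 = (Fintype.card (OrbT N x) : ℚ) - 2 * m := hm1
    rcases hcardO with ⟨h1, -⟩ | h1
    · rw [Nat.card_eq_fintype_card] at h1
      rw [h1] at hm hm2
      rw [hm2]
      have h3 : m = 0 ∨ m = 1 := by omega
      rcases h3 with rfl | rfl <;> norm_num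
    · rw [Nat.card_eq_fintype_card] at h1
      have h4 : |psum N x 1| ≠ Fintype.card (OrbT N x) := by
        intro h
        have h3 := card_one_of_abs hN hxH h
        have h4 : Fintype.card (OrbT N x) ≤ 1 := Fintype.card_le_one_iff.2 h3
        omega
      rw [h1] at hm hm2 h4
      rw [hm2] at h4 ⊢
      have h3 : m = 0 ∨ m = 1 ∨ m = 2 ∨ m = 3 := by omega
      rcases h3 with rfl | rfl | rfl | rfl
      · exfalso
        apply h4
        norm_num
      · norm_num
      · norm_num
      · exfalso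
        apply h4
        norm_num
  -- the function is a multiple of the character
  have hFN : FF a = (dot (FF a) (chi N) / Fintype.card G) • chi N := by
    have h1 : FF a - (dot (FF a) (chi N) / Fintype.card G) • chi N = 0 := by
      refine QQ_ext (Submodule.sub_mem _ hF (Submodule.smul_mem _ _ (eps_mem_QQ hN))) ?_
      intro N' hN'
      rw [dot_sub, dot_smul]
      by_cases h : N = N'
      · subst h
        rw [dot_chi_self, div_mul_cancel₀ _ (Nat.cast_ne_zero.2 Fintype.card_ne_zero), sub_self]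
      · rw [dot_chi hc hN hN' h, mul_zero, sub_zero]
        by_contra h2
        have hst' : stb x ≤ N' := stb_le_of_dot hc hT hN' (FF_mem_VV ha) h2 hH hxP
        have h3 := even_card_orb hc hN hN' h hst'
        rw [← Nat.card_eq_fintype_card] at h3
        rcases hcardO with ⟨h1, -⟩ | h1
        · rw [h1] at h3
          exact absurd h3 (by decide)
        · rw [h1] at h3
          exact absurd h3 (by decide)
    exact sub_eq_zero.1 h1
  have hsupp : ∀ τ S, S ∉ P → a (tr τ S) = 0 := by
    intro τ S hS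
    apply ha
    intro h
    apply hS
    have h1 := hP τ⁻¹ _ h
    rwa [tr_inv_tr] at h1
  have hpos : ∀ τ ∈ N, ∀ S, a (tr τ S) = a S := by
    intro τ hτ S
    have h1 : FF (fun S => a (tr τ S)) = FF a := by
      have h2 := rtr_FF τ⁻¹ a
      rw [inv_inv] at h2
      rw [← h2]
      nth_rewrite 1 [hFN]
      rw [map_smul, rtr_chi hc hN, show chi N τ⁻¹ = 1 from if_pos (N.inv_mem hτ), one_smul]
      exact hFN.symm
    exact congrFun (FF_inj hcard (hsupp τ) ha (fun S => by rw [tr_compl, ha1]) ha1 h1) S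
  have hneg : ∀ τ, τ ∉ N → ∀ S, a (tr τ S) = -a S := by
    intro τ hτ S
    have h1 : FF (fun S => a (tr τ S)) = FF (fun S => -a S) := by
      have h2 := rtr_FF τ⁻¹ a
      rw [inv_inv] at h2
      rw [← h2]
      nth_rewrite 1 [hFN]
      rw [map_smul, rtr_chi hc hN, show chi N τ⁻¹ = -1 from if_neg
        (fun h => hτ (by simpa using N.inv_mem h)), smul_comm, ← hFN]
      funext σ
      rw [Pi.smul_apply, smul_eq_mul]
      unfold FF
      simp only [neg_mul, Finset.sum_neg_distrib, one_mul]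
    exact congrFun (FF_inj hcard (hsupp τ) (fun S hS => by rw [ha S hS, neg_zero])
      (fun S => by rw [tr_compl, ha1]) (fun S => by rw [ha1]) h1) S
  refine ⟨N, hN, hxH, hst, hpos, hcardO, habs, ?_⟩
  -- the value
  have hval : ∀ T : OrbT N x, a T.1 = a x := fun T => orb_val hpos T
  have h1 : ∀ σ, FF a σ = 2 * a x * psum N x σ := by
    intro σ
    have h2 := sum_rep (fun T : OrbT N x => (T.1 : Set G)) Subtype.val_injective hnc
      (fun S => a S * eps S σ) (fun S hS => by
        have hSP : S ∈ P := by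
          by_contra h
          exact hS (by rw [ha S h, zero_mul])
        exact orb_cover hc hH hN hxP (hT x hxP S hSP))
    have h3 : FF a σ = ∑ S : Set G, a S * eps S σ := rfl
    rw [h3, h2]
    unfold psum
    rw [Finset.mul_sum]
    refine Finset.sum_congr rfl fun T _ => ?_
    rw [ha1, eps_compl, hval T]
    ring
  have h2 : ∀ σ, psum N x σ = psum N x 1 * chi N σ := by
    intro σ
    by_cases h : σ ∈ N
    · rw [psum_mem h, show chi N σ = 1 from if_pos h, mul_one]
    · have h3 := psum_mem (x := x) (hN.2 σ h)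
      rw [psum_c hxH] at h3
      rw [show chi N σ = -1 from if_neg h, ← h3]
      ring
  funext σ
  rw [h1, h2, Pi.smul_apply, smul_eq_mul]
  ring

/-- Orbits with two elements. -/
theorem VV_le_QQ {c : G} (hc : ∀ g, c * g = g * c) {P : Set (Set G)} (hP : Stable P)
    (hcompl : ∀ S ∈ P, Sᶜ ∈ P) (hH : ∀ S ∈ P, Half c S) (hcard : P.ncard ≤ 2) : VV P ≤ QQ c := by
  classical
  refine Submodule.span_le.2 ?_
  rintro _ ⟨x, hx, rfl⟩
  have hxH := hH x hx
  have hN : Imag c (stb x) := by
    constructor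
    · intro h
      have h1 : tr c x = x := h
      rw [tr_c hc hxH] at h1
      exact ne_compl x h1.symm
    · intro τ hτ
      have h1 : tr τ x ≠ x := hτ
      have h2 : tr τ x = xᶜ := by
        by_contra h3
        have h4 := two_mul_card_le' hcompl (fun b : Bool => if b then x else tr τ x) ?_ ?_ ?_
        · simp at h4
          omega
        · rintro (_ | _) (_ | _) h
          · rfl
          · exact absurd h h1
          · exact absurd h.symm h1
          · rfl
        · rintro (_ | _) (_ | _) h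
          · exact ne_compl _ h
          · exact h3 h
          · apply h3
            have h5 : x = (tr τ x)ᶜ := h
            rw [← compl_compl (tr τ x), ← h5]
          · exact ne_compl _ h
        · rintro (_ | _)
          · exact hP τ x hx
          · exact hx
      change tr (c * τ) x = x
      rw [← tr_tr, h2, tr_compl, tr_c hc hxH, compl_compl]
  have h1 : ∀ S T : OrbT (stb x) x, S = T := by
    rintro ⟨S, τ, hτ, rfl⟩ ⟨T, τ', hτ', rfl⟩
    apply Subtype.ext
    exact (show tr τ x = x from hτ).trans (show tr τ' x = x from hτ').symm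
  rcases eq_of_sub hc hN hxH h1 with h | h
  · rw [SetLike.mem_coe, h]
    exact eps_mem_QQ hN
  · rw [SetLike.mem_coe, h, eps_compl']
    exact Submodule.neg_mem _ (eps_mem_QQ hN)

end

end

end Pool.Agent.W547.LD.Comb
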